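import Pool.Agent.N95.RZ.Final

/-!
# Degree-preserving amalgamation of real zero polynomials in two shared variables fails

`p = 1 - x₁² - x₂² + y (1 - x₁)` and `q = 1 - x₁² - x₂² + z (1 - x₂²)` are real zero polynomials of
total degree at most three that agree on `y = 0`, `z = 0`, and no real zero polynomial `r` of total
degree at most three satisfies `r(x, y, 0) = p` and `r(x, 0, z) = q`.
-/

set_option autoImplicit false

open MvPolynomial

namespace Pool.Agent.Results.MP_eea824_ag.NoAmalgam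

open Pool.Agent.N95.RZ

/-- **Theorem.** The degree-preserving amalgamation conjecture for real zero polynomials with two
shared variables fails, already for `d = 3` and `m = n = 1`. -/
theorem result :
    ∃ p q : MvPolynomial (Fin 2 ⊕ Fin 1) ℝ,
      p = 1 - X (Sum.inl 0) ^ 2 - X (Sum.inl 1) ^ 2 + X (Sum.inr 0) * (1 - X (Sum.inl 0)) ∧
      q = 1 - X (Sum.inl 0) ^ 2 - X (Sum.inl 1) ^ 2 + X (Sum.inr 0) * (1 - X (Sum.inl 1) ^ 2) ∧
      IsRealZero p ∧ IsRealZero q ∧ p.totalDegree ≤ 3 ∧ q.totalDegree ≤ 3 ∧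
      atZero p = atZero q ∧
      ¬ ∃ r : MvPolynomial (Fin 2 ⊕ (Fin 1 ⊕ Fin 1)) ℝ,
        IsRealZero r ∧ r.totalDegree ≤ 3 ∧ zToZero r = p ∧ yToZero r = q :=
  ⟨pp, qq, rfl, rfl, pp_realZero, qq_realZero, pp_deg, qq_deg, agree, no_amalgam⟩

end Pool.Agent.Results.MP_eea824_ag.NoAmalgam
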